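import Pool.Agent.Helper82.EN.Basic

set_option autoImplicit false

/-! # ENCODING BY TM: module CLU (in the unvisited case the delay is small) -/

namespace Pool.Agent.Helper82.EN

open Finset

/-! ## Running maxima -/

/-- running maximum on `[a, t)` -/
def clu_F (p : ℕ → ℤ) (a t : ℕ) : ℤ := (Ico a t).fold max (p a) p

theorem clu_F_le (p : ℕ → ℤ) {a t u : ℕ} (h1 : a ≤ u) (h2 : u < t) : p u ≤ clu_F p a t := by
  unfold clu_F
  rw [le_fold_max]
  exact Or.inr ⟨u, by simp [h1, h2], le_rfl⟩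

theorem clu_F_att (p : ℕ → ℤ) {a t : ℕ} (h : a < t) :
    ∃ u, a ≤ u ∧ u < t ∧ p u = clu_F p a t := by
  have h1 : clu_F p a t ≤ clu_F p a t := le_rfl
  rw [clu_F, le_fold_max] at h1
  rcases h1 with h1 | ⟨u, hu, h1⟩
  · exact ⟨a, le_rfl, h, le_antisymm (clu_F_le p le_rfl h) h1⟩
  · rw [mem_Ico] at hu
    exact ⟨u, hu.1, hu.2, le_antisymm (clu_F_le p hu.1 hu.2) h1⟩

theorem clu_F_mono (p : ℕ → ℤ) {a t t' : ℕ} (h : a < t) (h' : t ≤ t') :
    clu_F p a t ≤ clu_F p a t' := by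
  obtain ⟨u, h1, h2, h3⟩ := clu_F_att p h
  rw [← h3]
  exact clu_F_le p h1 (by omega)

theorem clu_lip (p : ℕ → ℤ) (hp : ∀ t, |p (t + 1) - p t| ≤ 1) {a b : ℕ} (hab : a ≤ b) :
    p b ≤ p a + ((b : ℤ) - a) := by
  induction b, hab using Nat.le_induction with
  | base => simp
  | succ b hb ih =>
    have := abs_le.1 (hp b)
    push_cast
    omega

theorem clu_ivt (p : ℕ → ℤ) (hp : ∀ t, |p (t + 1) - p t| ≤ 1) {a b : ℕ} {z : ℤ} (hab : a ≤ b)
    (h1 : p a ≤ z) (h2 : z ≤ p b) : ∃ t, a ≤ t ∧ t ≤ b ∧ p t = z := by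
  induction b, hab using Nat.le_induction with
  | base => exact ⟨a, le_rfl, le_rfl, le_antisymm h1 h2⟩
  | succ b hb ih =>
    by_cases h : z ≤ p b
    · obtain ⟨t, ht1, ht2, ht3⟩ := ih h
      exact ⟨t, ht1, by omega, ht3⟩
    · have := abs_le.1 (hp b)
      exact ⟨b + 1, by omega, le_rfl, by omega⟩

/-- the front moves by at most one cell per step -/
theorem clu_F_lip (p : ℕ → ℤ) (hp : ∀ t, |p (t + 1) - p t| ≤ 1) {a t t' : ℕ} (h : a < t)
    (h' : t ≤ t') : clu_F p a t' ≤ clu_F p a t + ((t' : ℤ) - t) := by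
  obtain ⟨u, h1, h2, h3⟩ := clu_F_att p (lt_of_lt_of_le h h')
  rw [← h3]
  by_cases hu : u < t
  · have := clu_F_le p h1 hu
    omega
  · have e1 : p (t - 1) ≤ clu_F p a t := clu_F_le p (by omega) (by omega)
    have e2 := clu_lip p hp (a := t - 1) (b := u) (by omega)
    omega

/-- the front is close to the head -/
theorem clu_F_near (p : ℕ → ℤ) {κ a b t : ℕ} (hs : Stead p κ 1 a b) (h : a < t) (h' : t < b) :
    clu_F p a t ≤ p t + κ := by
  obtain ⟨u, h1, h2, h3⟩ := clu_F_att p h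
  rw [← h3]
  have := hs u t h1 (by omega) h'
  omega

/-- the front moves at speed at least `1 / 5` -/
theorem clu_F_speed (p : ℕ → ℤ) {κ a b t t' : ℕ} (hs : Stead p κ 1 a b) (h : a < t) (h' : t < t')
    (hb : t' ≤ b) : (t' : ℤ) - t ≤ 5 * (clu_F p a t' - clu_F p a t) + 5 * κ := by
  obtain ⟨u, h1, h2, h3⟩ := clu_F_att p h
  rw [← h3]
  have e1 := hs u (t' - 1) h1 (by omega) (by omega)
  have e2 : p (t' - 1) ≤ clu_F p a t' := clu_F_le p (by omega) (by omega)
  omega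

/-- regions -/
theorem clu_reg (p : ℕ → ℤ) (hp : ∀ t, |p (t + 1) - p t| ≤ 1) (S : ℕ → ℕ) (k : ℕ) {z : ℤ}
    (h0 : S (k - 13) < S k) (h3 : S k ≤ S (k + 3)) (h1 : clu_F p (S (k - 13)) (S k) < z)
    (h2 : z ≤ clu_F p (S (k - 13)) (S (k + 3))) : Reg p S k 1 z := by
  refine ⟨fun t ht1 ht2 => ?_, ?_⟩
  · have := clu_F_le p ht1 ht2
    omega
  · obtain ⟨u, hu1, hu2, hu3⟩ := clu_F_att p (lt_of_lt_of_le h0 h3)
    have e1 : p (S (k - 13)) ≤ clu_F p (S (k - 13)) (S k) := clu_F_le p le_rfl h0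
    obtain ⟨t, ht1, ht2, ht3⟩ := clu_ivt p hp hu1 (z := z) (by omega) (by omega)
    refine ⟨t, ?_, by omega, ht3⟩
    by_contra hlt
    have := clu_F_le p ht1 (not_le.1 hlt)
    omega

/-! ## Classes -/

namespace Pa

variable (P : Pa)

theorem clu_code_le (g : ℕ) : P.code g ≤ 4 := by
  unfold code
  split_ifs
  · omega
  · omega
  · omega
  · have := Nat.mod_lt (g / (4 * P.D + 3) / 3 ^ (g % (4 * P.D + 3) - 2)) (show 0 < 3 by norm_num)
    omega

theorem clu_code_pos (g : ℕ) : P.code g ≠ 0 := by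
  unfold code
  split_ifs <;> omega

theorem clu_cls_le (i : ℕ) : P.cls i ≤ 4 := by
  unfold cls
  split_ifs
  · exact P.clu_code_le _
  · omega

theorem clu_cls_ne (i : ℕ) : P.cls i ≠ 0 ↔ i % 3 = 0 := by
  unfold cls
  split_ifs with h
  · simp [h, P.clu_code_pos]
  · simp [h]

theorem clu_cls_nb (m : ℕ) : P.cls (P.nb * m) = 4 := by
  have e1 : P.nb * m = 3 * ((4 * P.D + 3) * m) := by rw [nb]; ring
  unfold cls
  rw [e1, Nat.mul_mod_right, if_pos rfl, Nat.mul_div_cancel_left _ (by norm_num)]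
  unfold code
  rw [Nat.mul_mod_right, if_pos rfl]

theorem clu_ell (hD : 1 ≤ P.D) (a b : ℕ) (h : a < b) (hb : b ≤ 4) :
    100 * P.ell a ≤ P.ell b := by
  have hDL : P.Lam ≤ P.D * P.Lam := Nat.le_mul_of_pos_left _ hD
  unfold ell
  split_ifs <;> omega

theorem clu_tau_succ (i : ℕ) : P.tau (i + 1) = P.tau i + P.len i := by
  rw [tau, sum_range_succ, ← tau]

/-- good blocks in a row have the same triple -/
theorem clu_sw {Q : Type} {M : Mc Q} {Δ : ℕ}
    (h : ∀ m, 1 ≤ m → (m - 1) % 3 ^ P.D ≠ 3 ^ P.D - 1 → P.sw (m + 1) = P.sw m) {a b : ℕ}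
    (hab : a ≤ b) (hg : ∀ j, a ≤ j → j ≤ b → P.good M Δ j) : P.sw b = P.sw a := by
  induction b, hab using Nat.le_induction with
  | base => rfl
  | succ b hb ih =>
    have g1 := hg b hb (by omega)
    rw [h b g1.1 g1.2.2.2]
    exact ih fun j hj1 hj2 => hg j hj1 (by omega)

/-- the initial content of a source stage -/
theorem clu_ini {Q : Type} {M : Mc Q} {c : ℕ → Cf Q} {n : ℕ} (hS : P.Sit M c n) {j : ℕ}
    (hj : j < P.Nst) (hD : 0 < P.D) {C : Fin P.D → Tp} {u : ℤ} (hu1 : (n + P.tau j : ℕ) ≤ u)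
    (hu2 : u + P.D ≤ (n + P.tau (j + 1) : ℕ)) (hC : ∀ x : Fin P.D, C x = (c 0).T (u + x)) :
    P.Ini (P.seed j) C := by
  obtain ⟨v, rfl⟩ : ∃ v : ℕ, u = ((n + P.tau j : ℕ) : ℤ) + v :=
    ⟨(u - (n + P.tau j : ℕ)).toNat, by omega⟩
  rw [P.clu_tau_succ] at hu2
  refine ⟨v, fun x => ?_⟩
  have hx := x.2
  have e1 : ((n + P.tau j : ℕ) : ℤ) + v + x = ((n + P.tau j + (x + v) : ℕ) : ℤ) := by
    push_cast; ring
  rw [hC x, e1, hS.right j hj (x + v) (by push_cast at hu2; omega)]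
  unfold letter
  rw [dif_pos hD]

/-- overlaps of length at least `bet` give relations -/
theorem clu_rel (hR : ST_READ) {Q : Type} {K Δ n : ℕ} {M : Mc Q} {c : ℕ → Cf Q}
    (hOk : P.Ok K Δ) (hS : P.Sit M c n) {t₀ t₃ : ℕ}
    (hSt : Stead (fun t => (c t).p) P.kap 1 t₀ t₃) {i j : ℕ}
    (hi : i < P.Nst) (hj : j < P.Nst) (h1 : t₀ < n + P.tau i) (h2 : n + P.tau (i + 1) ≤ t₃)
    (hun : ∀ z : ℤ, clu_F (fun t => (c t).p) t₀ (n + P.tau i) < z →
      z ≤ clu_F (fun t => (c t).p) t₀ (n + P.tau (i + 1)) → ∀ t < t₀, (c t).p ≠ z)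
    (hov : (P.bet : ℤ) ≤ min (clu_F (fun t => (c t).p) t₀ (n + P.tau (i + 1)))
        (((n + P.tau (j + 1) : ℕ) : ℤ) - 1) -
      max (clu_F (fun t => (c t).p) t₀ (n + P.tau i)) (((n + P.tau j : ℕ) : ℤ) - 1)) :
    P.Rel M (P.seed j) (P.seed i) := by
  set p : ℕ → ℤ := fun t => (c t).p with hp
  set xi := clu_F p t₀ (n + P.tau i) with hxi
  set xi' := clu_F p t₀ (n + P.tau (i + 1)) with hxi'
  set m := max xi (((n + P.tau j : ℕ) : ℤ) - 1) with hm
  have hD : 1 ≤ P.D := by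
    have := hOk.hdD
    have := hOk.hd
    omega
  have hbet : P.bet = P.D + 2 * P.kap + 2 := rfl
  have m1 : xi ≤ m := le_max_left _ _
  have m2 : ((n + P.tau j : ℕ) : ℤ) - 1 ≤ m := le_max_right _ _
  have m3 := min_le_left xi' (((n + P.tau (j + 1) : ℕ) : ℤ) - 1)
  have m4 := min_le_right xi' (((n + P.tau (j + 1) : ℕ) : ℤ) - 1)
  have hts := P.clu_tau_succ i
  have hper : PerOut P M c (P.seed i) (n + P.tau i) (n + P.tau (i + 1)) := by
    intro t ht1 ht2 hD'
    have e1 : t = n + P.tau i + (t - (n + P.tau i)) := by omega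
    have e2 := hS.outp i hi (t - (n + P.tau i)) (by omega)
    rw [← e1] at e2
    rw [e2, letter, dif_pos hD']
  have hlt : ∀ t, t₀ ≤ t → t < n + P.tau i → (c t).p < m + 1 := by
    intro t ht1 ht2
    have := clu_F_le p ht1 ht2
    have e : p t = (c t).p := rfl
    omega
  have hex : ∃ t, n + P.tau i ≤ t ∧ t < n + P.tau (i + 1) ∧ m + 1 + P.D + P.kap ≤ (c t).p := by
    obtain ⟨t, ht1, ht2, ht3⟩ := clu_F_att p (a := t₀) (t := n + P.tau (i + 1)) (by omega)
    have e : p t = (c t).p := rfl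
    refine ⟨t, ?_, ht2, by omega⟩
    by_contra hh
    have := hlt t ht1 (not_le.1 hh)
    omega
  obtain ⟨c', hc1, hc2, hc3, hc4⟩ := hR Q P M c t₀ (n + P.tau i) (n + P.tau (i + 1)) t₃ (m + 1)
    (P.seed i) hS.step hD h1 h2 hSt hper hlt hex
  refine Or.inl ⟨c', hc2, hc3, Or.inl ?_⟩
  refine P.clu_ini hS hj (by omega) (u := m + 1) (by omega) (by omega) fun x => ?_
  have hx := x.2
  rw [hc1, hc4 x (by omega) (by omega)]
  have e1 : c t₀ = M.run (c 0) t₀ := by
    have := run_of_step M hS.step 0 t₀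
    rwa [Nat.zero_add] at this
  rw [e1]
  refine run_T_eq M (c 0) t₀ (m + 1 + x) fun t ht => ?_
  have e2 : c t = M.run (c 0) t := by
    have := run_of_step M hS.step 0 t
    rwa [Nat.zero_add] at this
  rw [← e2]
  exact hun (m + 1 + x) (by omega) (by omega) t ht

end Pa

theorem st_CLU (h1 : ST_READ) (h2 : ST_MATCH) (h3 : ST_DEC) (h4 : ST_BLK) : ST_CLU := by
  intro Q P K Δ n k M c hOk hnK hS hk hkN hgood hSt hU
  obtain ⟨μ, ν, hμν, hgs, hreg⟩ := hU
  obtain ⟨b0, b1, b2, b3, b4, b5⟩ := h4 P K Δ n hOk hnK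
  set p : ℕ → ℤ := fun t => (c t).p with hp
  have hstep : ∀ t, |p (t + 1) - p t| ≤ 1 := fun t => by
    have := abs_step M (c t)
    rw [← hS.step] at this
    exact this
  have hD : 1 ≤ P.D := by
    have := hOk.hdD
    have := hOk.hd
    omega
  have hL := hOk.hlam
  have hbet : P.bet = P.D + 2 * P.kap + 2 := rfl
  have hnb : P.nb = 3 * (4 * P.D + 3) := rfl
  have hnb9 : 9 ≤ P.nb := by omega
  have hSS : ∀ m, 1 ≤ m → P.S n m = n + P.tau (P.nb * (m - 1)) := fun m hm => by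
    unfold Pa.S
    rw [if_neg (by omega)]
  have htau : StrictMono P.tau := strictMono_nat_of_lt_succ fun i => by
    have := (b3 i).1
    rw [P.clu_tau_succ]
    omega
  have hnbm : ∀ a b, a < b → P.nb * a + P.nb ≤ P.nb * b := fun a b hab => by
    rw [← Nat.mul_succ]
    exact Nat.mul_le_mul_left _ hab
  have gμ := hgs μ le_rfl hμν.le
  have gν := hgs ν hμν.le le_rfl
  have hμ1 : 1 ≤ μ := gμ.1
  have hνN : ν ≤ P.N := gν.2.1
  -- the times
  have e0 : P.S n (k - 13) = n + P.tau (P.nb * (k - 14)) := by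
    rw [hSS _ (by omega)]
    rfl
  have ek : P.S n k = n + P.tau (P.nb * (k - 1)) := hSS _ (by omega)
  have ek1 : P.S n (k + 1) = n + P.tau (P.nb * k) := by
    rw [hSS _ (by omega)]
    rfl
  have ek3 : P.S n (k + 3) = n + P.tau (P.nb * (k + 2)) := by
    rw [hSS _ (by omega)]
    rfl
  have eμ : P.S n (μ + 1) = n + P.tau (P.nb * μ) := by
    rw [hSS _ (by omega)]
    rfl
  have eν : P.S n ν = n + P.tau (P.nb * (ν - 1)) := hSS _ (by omega)
  have n1 : P.nb * (k - 14) + P.nb ≤ P.nb * (k - 1) := hnbm _ _ (by omega)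
  have n2 : P.nb * (k - 1) + P.nb ≤ P.nb * k := hnbm _ _ (by omega)
  have n3 : P.nb * k + P.nb ≤ P.nb * (k + 1) := hnbm _ _ (by omega)
  have n4 : P.nb * (k + 1) + P.nb ≤ P.nb * (k + 2) := hnbm _ _ (by omega)
  have n5 : P.nb * (k + 2) ≤ P.Nst := Nat.mul_le_mul_left _ hkN
  have n6 : P.nb * (ν - 1) ≤ P.Nst := Nat.mul_le_mul_left _ (by omega)
  have hregz : ∀ z : ℤ, clu_F p (P.S n (k - 13)) (P.S n k) < z →
      z ≤ clu_F p (P.S n (k - 13)) (P.S n (k + 3)) →
      (P.S n (μ + 1) : ℤ) ≤ z ∧ z < P.S n ν ∧ ∀ t < P.S n (k - 13), p t ≠ z := by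
    intro z hz1 hz2
    refine hreg z (clu_reg p hstep (P.S n) k ?_ ?_ hz1 hz2)
    · rw [e0, ek]
      have := htau (show P.nb * (k - 14) < P.nb * (k - 1) by omega)
      omega
    · rw [ek, ek3]
      have := htau.monotone (show P.nb * (k - 1) ≤ P.nb * (k + 2) by omega)
      omega
  rw [e0] at hregz hSt
  rw [ek, ek3] at hregz
  rw [ek3] at hSt
  rw [eμ, eν] at hregz
  set t₀ := n + P.tau (P.nb * (k - 14)) with ht₀
  -- lengths
  have hT0 : ∀ i, P.nb * (k - 1) ≤ i → t₀ < n + P.tau i := fun i hi => by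
    have := htau (show P.nb * (k - 14) < i by omega)
    omega
  have hX : ∀ i, P.nb * (k - 1) ≤ i → i < P.nb * (k + 2) →
      (P.len i : ℤ) ≤ 6 * (clu_F p t₀ (n + P.tau (i + 1)) - clu_F p t₀ (n + P.tau i)) ∧
      clu_F p t₀ (n + P.tau (i + 1)) - clu_F p t₀ (n + P.tau i) ≤ P.len i := by
    intro i hi1 hi2
    have q1 := hT0 i hi1
    have q2 := P.clu_tau_succ i
    have q3 := (b3 i).1
    have q4 := htau.monotone (show i + 1 ≤ P.nb * (k + 2) by omega)
    have q5 := clu_F_speed p hSt q1 (t' := n + P.tau (i + 1)) (by omega) (by omega)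
    have q6 := clu_F_lip p hstep q1 (t' := n + P.tau (i + 1)) (by omega)
    push_cast at q5 q6
    constructor <;> omega
  -- relations
  have hrel : ∀ i j, P.nb * (k - 1) ≤ i → i < P.nb * (k + 2) → j < P.nb * (ν - 1) →
      (P.bet : ℤ) ≤ min (clu_F p t₀ (n + P.tau (i + 1))) (((n + P.tau (j + 1) : ℕ) : ℤ) - 1) -
        max (clu_F p t₀ (n + P.tau i)) (((n + P.tau j : ℕ) : ℤ) - 1) →
      P.Rel M (P.seed j) (P.seed i) := by
    intro i j hi1 hi2 hj hov
    refine P.clu_rel h1 hOk hS hSt (by omega) (by omega) (hT0 i hi1) ?_ ?_ hov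
    · have := htau.monotone (show i + 1 ≤ P.nb * (k + 2) by omega)
      omega
    · intro z hz1 hz2
      refine (hregz z (lt_of_le_of_lt ?_ hz1) (le_trans hz2 ?_)).2.2
      · refine clu_F_mono p (hT0 _ le_rfl) ?_
        have := htau.monotone hi1
        omega
      · refine clu_F_mono p (hT0 _ (by omega)) ?_
        have := htau.monotone (show i + 1 ≤ P.nb * (k + 2) by omega)
        omega
  -- seeds
  have hlt3 : ∀ i : ℕ, i % 3 < 3 := fun i => Nat.mod_lt _ (by norm_num)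
  have hseedX : ∀ i, P.nb * (k - 1) ≤ i → i < P.nb * (k + 2) →
      P.seed i = P.sw k ⟨i % 3, hlt3 i⟩ ∧ P.ideg M (P.seed i) ≤ Δ := by
    intro i hi1 hi2
    have q1 : k - 1 ≤ i / P.nb := (Nat.le_div_iff_mul_le (by omega)).2 (by
      rw [Nat.mul_comm]
      exact hi1)
    have q2 : i / P.nb < k + 2 := (Nat.div_lt_iff_lt_mul (by omega)).2 (by
      rw [Nat.mul_comm]
      exact hi2)
    have q3 := P.clu_sw (M := M) (Δ := Δ) b4 (a := k) (b := i / P.nb + 1) (by omega)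
      fun j hj1 hj2 => hgood j (by omega) (by omega)
    have q4 : P.seed i = P.sw k ⟨i % 3, hlt3 i⟩ := by
      rw [b5 i, q3]
    exact ⟨q4, by rw [q4]; exact ((hgood k (by omega) (by omega)).2.2.1.g2 _).2⟩
  have hseedY : ∀ j, P.nb * μ ≤ j → j < P.nb * (ν - 1) →
      P.seed j = P.sw μ ⟨j % 3, hlt3 j⟩ ∧ P.odeg M (P.seed j) ≤ Δ := by
    intro j hj1 hj2
    have q1 : μ ≤ j / P.nb := (Nat.le_div_iff_mul_le (by omega)).2 (by
      rw [Nat.mul_comm]
      exact hj1)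
    have q2 : j / P.nb < ν - 1 := (Nat.div_lt_iff_lt_mul (by omega)).2 (by
      rw [Nat.mul_comm]
      exact hj2)
    have q3 := P.clu_sw (M := M) (Δ := Δ) b4 (a := μ) (b := j / P.nb + 1) (by omega)
      fun j hj1 hj2 => hgs j (by omega) (by omega)
    have q4 : P.seed j = P.sw μ ⟨j % 3, hlt3 j⟩ := by
      rw [b5 j, q3]
    exact ⟨q4, by rw [q4]; exact (gμ.2.2.1.g2 _).1⟩
  have hmod : ∀ (i : ℕ) (a : Fin 3), ∃ e ≤ 2, (⟨(i + e) % 3, hlt3 _⟩ : Fin 3) = a := by
    intro i a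
    have ha := a.2
    refine ⟨(a + 3 - i % 3) % 3, by omega, Fin.ext ?_⟩
    show (i + (a + 3 - i % 3) % 3) % 3 = a
    omega
  have hA : ∀ i j, P.nb * (k - 1) ≤ i → i + 2 < P.nb * (k + 2) → P.nb * μ ≤ j →
      j < P.nb * (ν - 1) → ¬ ∀ e : ℕ, e ≤ 2 →
      (P.bet : ℤ) ≤ min (clu_F p t₀ (n + P.tau (i + e + 1))) (((n + P.tau (j + 1) : ℕ) : ℤ) - 1) -
        max (clu_F p t₀ (n + P.tau (i + e))) (((n + P.tau j : ℕ) : ℤ) - 1) := by
    intro i j hi1 hi2 hj1 hj2 hall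
    refine (hgood k (by omega) (by omega)).2.2.1.g4 (P.seed j) (hseedY j hj1 hj2).2 fun a => ?_
    obtain ⟨e, he, hea⟩ := hmod i a
    rw [← hea, ← (hseedX (i + e) (by omega) (by omega)).1]
    exact hrel (i + e) j (by omega) (by omega) hj2 (hall e he)
  have hB : ∀ i j, P.nb * (k - 1) ≤ i → i < P.nb * (k + 2) → P.nb * μ ≤ j →
      j + 2 < P.nb * (ν - 1) → ¬ ∀ e : ℕ, e ≤ 2 →
      (P.bet : ℤ) ≤ min (clu_F p t₀ (n + P.tau (i + 1))) (((n + P.tau (j + e + 1) : ℕ) : ℤ) - 1) -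
        max (clu_F p t₀ (n + P.tau i)) (((n + P.tau (j + e) : ℕ) : ℤ) - 1) := by
    intro i j hi1 hi2 hj1 hj2 hall
    refine gμ.2.2.1.g3 (P.seed i) (hseedX i hi1 hi2).2 fun a => ?_
    obtain ⟨e, he, hea⟩ := hmod j a
    rw [← hea, ← (hseedY (j + e) (by omega) (by omega)).1]
    exact hrel i (j + e) hi1 hi2 (by omega) (hall e he)
  -- the two partitions
  have hlen : ∀ i, P.ell (P.cls i) = P.len i := fun i => rfl
  have hx0 := hregz (clu_F p t₀ (n + P.tau (P.nb * (k - 1))) + 1) (by omega) (by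
    have q1 := hX (P.nb * (k - 1)) le_rfl (by omega)
    have q2 := (b3 (P.nb * (k - 1))).1
    have q3 := clu_F_mono p (hT0 (P.nb * (k - 1) + 1) (by omega))
      (t' := n + P.tau (P.nb * (k + 2))) (by
        have := htau.monotone (show P.nb * (k - 1) + 1 ≤ P.nb * (k + 2) by omega)
        omega)
    omega)
  have hx1 := hregz (clu_F p t₀ (n + P.tau (P.nb * (k + 2)))) (by
    have q1 := hX (P.nb * (k - 1)) le_rfl (by omega)
    have q2 := (b3 (P.nb * (k - 1))).1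
    have q3 := clu_F_mono p (hT0 (P.nb * (k - 1) + 1) (by omega))
      (t' := n + P.tau (P.nb * (k + 2))) (by
        have := htau.monotone (show P.nb * (k - 1) + 1 ≤ P.nb * (k + 2) by omega)
        omega)
    omega) le_rfl
  have hμν2 : μ < ν - 1 := by
    by_contra hh
    have : P.tau (P.nb * (ν - 1)) ≤ P.tau (P.nb * μ) :=
      htau.monotone (Nat.mul_le_mul_left _ (not_lt.1 hh))
    omega
  have n7 := hnbm _ _ hμν2
  have hmatch := h2 P.Lam P.bet (fun a => (P.ell a : ℤ))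
    (fun i => clu_F p t₀ (n + P.tau i.toNat)) (fun j => ((n + P.tau j.toNat : ℕ) : ℤ) - 1)
    (fun i => P.cls i.toNat) (fun j => P.cls j.toNat)
    ((P.nb * (k - 1) : ℕ) : ℤ) (((P.nb * (k + 2) : ℕ) : ℤ) - 1)
    ((P.nb * μ : ℕ) : ℤ) (((P.nb * (ν - 1) : ℕ) : ℤ) - 1) 0 0
    (by omega) (by omega) (by simp [Pa.ell])
    (fun a b hab hb => by
      have := P.clu_ell hD a b hab hb
      show 100 * (P.ell a : ℤ) ≤ (P.ell b : ℤ)
      omega)
    (fun i => P.clu_cls_le _) (fun j => P.clu_cls_le _)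
    (fun i hi1 hi2 => by
      show P.cls i.toNat ≠ 0 ↔ _
      rw [P.clu_cls_ne]
      omega)
    (fun i hi1 hi2 => by
      show P.cls i.toNat ≠ 0 ↔ _
      rw [P.clu_cls_ne]
      omega)
    (fun i hi1 hi2 => by
      obtain ⟨a, rfl⟩ := Int.eq_ofNat_of_zero_le (a := i) (by omega)
      have q1 : ((a : ℤ) + 1).toNat = a + 1 := by omega
      have := hX a (by omega) (by omega)
      simp only [q1, Int.toNat_natCast, hlen]
      exact this)
    (fun j hj1 hj2 => by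
      obtain ⟨a, rfl⟩ := Int.eq_ofNat_of_zero_le (a := j) (by omega)
      have q1 : ((a : ℤ) + 1).toNat = a + 1 := by omega
      have := P.clu_tau_succ a
      simp only [q1, Int.toNat_natCast]
      omega)
    (fun j hj1 hj2 _ _ => by
      obtain ⟨a, rfl⟩ := Int.eq_ofNat_of_zero_le (a := j) (by omega)
      have q1 : ((a : ℤ) + 1).toNat = a + 1 := by omega
      have := P.clu_tau_succ a
      simp only [q1, Int.toNat_natCast, hlen]
      omega)
    (by
      simp only [Int.toNat_natCast]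
      omega)
    (by
      have q1 : (((P.nb * (k + 2) : ℕ) : ℤ) - 1 + 1).toNat = P.nb * (k + 2) := by omega
      have q2 : (((P.nb * (ν - 1) : ℕ) : ℤ) - 1 + 1).toNat = P.nb * (ν - 1) := by omega
      simp only [q1, q2]
      omega)
    (by omega)
    (fun i j hi1 hi2 hj1 hj2 hall => by
      obtain ⟨a, rfl⟩ := Int.eq_ofNat_of_zero_le (a := i) (by omega)
      obtain ⟨b, rfl⟩ := Int.eq_ofNat_of_zero_le (a := j) (by omega)
      refine hA a b (by omega) (by omega) (by omega) (by omega) fun e he => ?_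
      have q := hall e (by omega) (by omega)
      have q1 : ((a : ℤ) + e + 1).toNat = a + e + 1 := by omega
      have q2 : ((a : ℤ) + e).toNat = a + e := by omega
      have q3 : ((b : ℤ) + 1).toNat = b + 1 := by omega
      simp only [q1, q2, q3, Int.toNat_natCast] at q
      exact q)
    (fun i j hi1 hi2 hj1 hj2 hall => by
      obtain ⟨a, rfl⟩ := Int.eq_ofNat_of_zero_le (a := i) (by omega)
      obtain ⟨b, rfl⟩ := Int.eq_ofNat_of_zero_le (a := j) (by omega)
      refine hB a b (by omega) (by omega) (by omega) (by omega) fun e he => ?_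
      have q := hall e (by omega) (by omega)
      have q1 : ((b : ℤ) + e + 1).toNat = b + e + 1 := by omega
      have q2 : ((b : ℤ) + e).toNat = b + e := by omega
      have q3 : ((a : ℤ) + 1).toNat = a + 1 := by omega
      simp only [q1, q2, q3, Int.toNat_natCast] at q
      exact q)
    ((P.nb * k : ℕ) : ℤ) (by omega) (by
      simp only [Int.toNat_natCast, P.clu_cls_nb]
      norm_num)
  obtain ⟨j, hj⟩ := hmatch
  have hj0 := hj 0 le_rfl (by omega)
  have q0 : ((P.nb * k : ℕ) : ℤ) + 3 * 0 = ((P.nb * k : ℕ) : ℤ) := by ring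
  have q0' : j + 3 * 0 = j := by ring
  simp only [q0, q0', Int.toNat_natCast] at hj0
  obtain ⟨r1, r2, r3, r4⟩ := hj0
  obtain ⟨v, rfl⟩ := Int.eq_ofNat_of_zero_le (a := j) (by omega)
  simp only [Int.toNat_natCast] at r3 r4
  have hvN : v / P.nb < P.N := by
    have : v / P.nb < ν - 1 := (Nat.div_lt_iff_lt_mul (by omega)).2 (by
      rw [Nat.mul_comm]
      omega)
    omega
  have hv := (h3 P hD k v (by omega) hvN r3.symm).1 fun g hg => by
    have s1 : 3 * g + 3 ≤ P.nb := by omega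
    have s2 := (hj g (by omega) (by omega)).2.2.1
    have s3 : ((v : ℤ) + 3 * g).toNat = v + 3 * g := by omega
    have s4 : (((P.nb * k : ℕ) : ℤ) + 3 * g).toNat = P.nb * k + 3 * g := by omega
    simp only [s3, s4] at s2
    exact s2.symm
  subst hv
  have r5 := (abs_le.1 r4).2
  have r6 : clu_F p t₀ (n + P.tau (P.nb * k)) ≤ p (n + P.tau (P.nb * k)) + P.kap := by
    refine clu_F_near p hSt (hT0 _ (by omega)) ?_
    have := htau (show P.nb * k < P.nb * (k + 2) by omega)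
    omega
  rw [ek1]
  have r7 : p (n + P.tau (P.nb * k)) = (c (n + P.tau (P.nb * k))).p := rfl
  rw [r7] at r6
  omega

end Pool.Agent.Helper82.EN
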